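import Pool.Agent.TH106.GapRO

/-!
# Nondeterministic read-once programs of size `n ^ o(k)` do not approximate the clique number

To tell the graphs with a clique of `s` vertices from the graphs without a clique of `s / g` vertices
one needs nondeterministic read-once branching programs with `n ^ (c s / g ^ 8)` nodes, even if the
program is chosen at random and each graph with a clique of `s` vertices is accepted only with
probability `n ^ (- c s / g ^ 4)`. (Trying all sets of `s / g` vertices gives a nondeterministic
read-once program with about `n ^ (s / g)` nodes, so for constant `g` the exponent is optimal up to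
a constant factor.)

The definitions are in `Pool/Agent/H554R2/Sem/Defs.lean` (`NBP`: nondeterministic branching programs;
the nodes are the elements of `State` and the accepting sink `none`), in
`Pool/Agent/H554R2/RK/Defs.lean` (`ReadK P 1`: on every path from the start node every variable is
queried at most once; `Acc P x`: some computation on `x` reaches the accepting sink) and in
`Pool/Agent/H641R3/RG/Main.lean` (`graphOf`).

Proof. Suppose that a program accepts many of the graphs which consist of a complete graph on a set
`S` of `s` vertices and isolated vertices. An accepting computation is cut into `O(g ^ 4)` pieces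
such that each piece reads only a small part of the pairs inside `S`. All the sets with the same
cutting points can be mixed: the program accepts the graph whose edges are, for each piece `t`, the
pairs inside `S t` that are read in the piece `t`. A clique `Q` with `s / g` vertices in such a
mixture meets many of the sets `S t` in many vertices altogether, at least `5 s`, and for random
`S t` this has probability at most `(s / n) ^ (5 s)` for each `Q`.
-/

set_option autoImplicit false

namespace Pool.Agent.Results.MP_678664_lc.GapReadOncePrograms

open Pool.Agent.H554R2 Pool.Agent.H554R2.Sem Pool.Agent.H641R3.RG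

/-- `φ` enumerates the pairs of distinct vertices, and `graphOf φ x` is the graph on `n` vertices in
which the pair `φ i` is joined if and only if `x i = true`. Let `g ≥ 1`, `s ≥ 15 g ^ 2`, `n ≥ 2 s`
and `m = 450 g ^ 4 + 2`. Let `P ω`, `ω ∈ Ω`, be a finite nonempty family of nondeterministic
read-once branching programs, each with at most `Z` nodes besides the accepting sink, such that each
of them accepts only graphs in which some clique has at least `s / g` vertices. If each graph with a
clique of `s` vertices is accepted by at least `p |Ω|` of the programs, then
`p ^ m (n / s) ^ s ≤ (Z + 1) ^ (m (m + 1))`. -/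
theorem result (n s g N Z : ℕ) (p : ℝ) (hp : 0 ≤ p) (hg : 1 ≤ g) (hs : 15 * g ^ 2 ≤ s)
    (hn : 2 * s ≤ n) (φ : Fin N ≃ {e : Sym2 (Fin n) // ¬ e.IsDiag}) (Ω : Type) [Fintype Ω]
    [Nonempty Ω] (P : Ω → NBP (Fin N)) (hP : ∀ ω, RK.ReadK (P ω) 1)
    (hZ : ∀ ω, Fintype.card (P ω).State ≤ Z)
    (hno : ∀ ω x, RK.Acc (P ω) x → ∃ Q : Finset (Fin n), s ≤ g * Q.card ∧
      (graphOf φ x).IsClique (Q : Set (Fin n)))
    (hyes : ∀ x, (∃ S : Finset (Fin n), S.card = s ∧ (graphOf φ x).IsClique (S : Set (Fin n))) →
      p * Fintype.card Ω ≤ Nat.card {ω : Ω // RK.Acc (P ω) x}) :
    p ^ (450 * g ^ 4 + 2) * ((n : ℝ) / s) ^ s ≤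
      ((Z : ℝ) + 1) ^ ((450 * g ^ 4 + 3) * (450 * g ^ 4 + 2)) :=
  Pool.Agent.TH106.GapRO.lowerRand n s g N Z p hp hg hs hn φ Ω P hP hZ hno hyes

end Pool.Agent.Results.MP_678664_lc.GapReadOncePrograms
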