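import Pool.Agent.TH837.KC.Final

/-!
# Approximating the weight of a `k`-clique by pure dynamic programs: the exact exponents

The input of a (max,+) program (a pure dynamic program, a tropical circuit) is a weight of each edge
of the complete `k`-partite graph with `n` vertices in each part. The program computes functions of
the weights, one after the other; each is an input, a real constant, or the maximum or the sum of two
functions computed before. It shall approximate the largest total weight of the `C(k,2)` edges of a
clique with one vertex in each part. Such a program with ratio `α` separates the graphs with a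
`k`-clique from those in which every choice of one vertex in each part gives less than `α C(k,2)`
edges.

The theorem determines, for each ratio `α` with `0 < α ≤ 1` and each fixed `k ≥ 2`, the least number
of instructions up to a factor which depends only on `k`: it is `n ^ (u + 1)`, where `u` is the least
number with `1 - C(k-u,2) / C(k,2) ≥ α`. This `u` is the least treewidth of a graph with `k` vertices
and at least `α C(k,2)` edges. Since `u + 1 ≥ (1 - √(1 - α)) k`, no constant ratio can be achieved
with `f(k) n^(o(k))` instructions, and with `n^(O(1))` instructions the best ratio is about `2u / k`.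
The lower bound `q n ^ (u + 1) / 4 ^ k` holds for randomised programs whose values never exceed the
optimum, and which reach `α C(k,2)` with probability only `q` if the weights are one on a single
clique and zero elsewhere.

Proof of the lower bound. By scaling, the monomials of the program are sets of edges of cliques. For
a clique `x` some monomial contains at least `α C(k,2)` edges of `x`. At an addition gate of its
proof tree let `a`, `b`, `s` be the parts of the monomial from the left input, from the right input,
and from the rest of the tree, and let the bag be the set of the indices `i` in `Fin k` such that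
edges of `x` at the vertex `x i` are in at least two of these parts. If all bags have at most `u`
elements then the monomial contains at most as many edges of `x` as a graph of treewidth `u - 1` can
have (by induction and convexity, without tree decompositions). So some bag has at least `u + 1`
elements. If the cliques `x` and `x'` are cut at the same gate in the same way (there are `4 ^ k`
ways), then parts of the monomials can be exchanged, so `x` and `x'` agree on the bag; hence
at most `n ^ (k - u - 1)` cliques are cut at this gate in this way. The upper bound takes the maximum
over all sets of `u` parts, connects them to all parts, and averages.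
-/

set_option autoImplicit false

namespace Pool.Agent.Results.MP_678664_lc.PureDPTradeoff

open Pool.Agent.TH837.KC
open Pool.Agent.TH837.MX (Computes)

theorem result (k : ℕ) (hk : 2 ≤ k) :
    (∀ u : ℕ, 1 ≤ u → u < k →
      (∀ n : ℕ, 1 ≤ n → ∃ f : (Ed k n → ℝ) → ℝ, Computes f (4 * k ^ 3 * 2 ^ k * n ^ (u + 1)) ∧
        ∀ w : Ed k n → ℝ, (∀ e, 0 ≤ w e) → (∃ z : Fin k → Fin n, f w ≤ ∑ e ∈ clq z, w e) ∧
          ∀ z : Fin k → Fin n,
            (1 - ((k - u).choose 2 : ℝ) / k.choose 2) * ∑ e ∈ clq z, w e ≤ f w) ∧
      (∀ α q : ℝ, 1 - ((k - u + 1).choose 2 : ℝ) / k.choose 2 < α →
        ∀ (n : ℕ) (R : Type) [Fintype R] [Nonempty R] (f : R → (Ed k n → ℝ) → ℝ),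
          Approx α q f → ∀ s : ℕ, (∀ r, Computes (f r) s) → q * n ^ (u + 1) ≤ 4 ^ k * s)) ∧
    (∀ α q : ℝ, 0 < α → α ≤ 1 → 0 ≤ q → ∀ n : ℕ, 1 ≤ n → ∀ (R : Type) [Fintype R] [Nonempty R]
      (f : R → (Ed k n → ℝ) → ℝ), Approx α q f → ∀ s : ℕ, (∀ r, Computes (f r) s) →
        q * (n : ℝ) ^ ((1 - Real.sqrt (1 - α)) * k) ≤ 4 ^ k * s) :=
  ⟨fun u hu huk => ⟨fun n hn => upper k hk u huk.le n hn,
    fun α q hα n R _ _ f hf s hs => lower' k hk u hu huk.le α q hα n R f hf s hs⟩,
    fun α q hα hα1 hq n hn R _ _ f hf s hs => lowerRoot k hk α q hα hα1 hq n hn R f hf s hs⟩

end Pool.Agent.Results.MP_678664_lc.PureDPTradeoff
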