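import Pool.Agent.TH661.LRS.CL3

set_option autoImplicit false

/-!
# Semidefinite programs for the gap version of k-clique

The definitions used in the statement are in `Pool/Agent/TH661/LRS/CL2.lean`:

* `edgesIn G K`: the number of edges of `G` inside the vertex set `K` (it is `k.choose 2` if and
  only if the `k`-set `K` is a clique);
* `CliqueSDP n k q r α ε`: the semidefinite programming formulations, with gap `ε`, of the problem
  to distinguish the graphs on `n` vertices with a `k`-clique from those with clique number at most
  `α k`, with `q` binary variables, any number of free real variables and linear equations, and a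
  positive semidefinite matrix variable of order `r`;
* `bits β` (in `Cut.lean`): the zero-one vector of the truth values `β`.

Idea of the proof. Take an unsatisfiable system of `N = O(k)` equations modulo `2`, in `k`
variables with three variables in each, with a pseudo-density `D` of linear degree `t = Ω(k)` under
which all the equations hold. Choose `k` random `ℓ`-tuples of equations, where `ℓ` is a constant,
such that no assignment satisfies all the equations of more than `α k` of the tuples. Replace every
variable by `b = n ^ Ω(1)` copies. The vertices are the pairs of a tuple and a choice of copies of
all its variables. For an assignment `x` of the copies, two vertices of different tuples are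
adjacent if their choices of copies agree and `x` satisfies their equations. This graph has no
clique of more than `α k` vertices. A choice `S` of one copy of every variable gives a set of `k`
vertices, and the number of the missing edges of this set is a function of the values of `x` on `S`
with pseudo-expectation `0`. By duality a formulation gives positive semidefinite matrices
`P S` and `Q x` of order `2 ^ q (r + 1)` such that `tr (P S * Q x)` is almost this number minus
`ε`. A polynomial of degree `(log n) t`, applied to the average of `D (x|S) P S` over `S`, isolates
the negative eigenvalues of this matrix, and its square is a low-degree function of `x`, against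
which the average of `D (x|S) P S` cannot be negative for typical `S`, unless
`2 ^ q (r + 1) ≥ n ^ Ω(t)`.
-/

namespace Pool.Agent.Results.MP_678664_lc.SemidefiniteFormulations

open Pool.Agent.TH661.LRS

/-- For every `α` with `0 < α < 1` there is a constant `C` such that the following holds for all
`k ≥ C` and `n ≥ 2 ^ (C k)`.

(1) Every semidefinite programming formulation, with `q` binary variables and a positive
semidefinite matrix variable of order `r`, with gap `ε ≥ n ^ (-1 / C)`, of the problem to
distinguish the graphs on `n` vertices with a `k`-clique from those with clique number at most
`α k`, satisfies `2 ^ q (r + 1) ≥ n ^ (k / C)`.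

(2) There is such a formulation with `q = 0`, `r = n.choose k ≤ n ^ k` and `ε = 1`. -/
theorem result : ∀ α : ℝ, 0 < α → α < 1 → ∃ C : ℕ, 1 ≤ C ∧
    ∀ n k : ℕ, C ≤ k → C * k ≤ Nat.log 2 n →
      (∀ (q r : ℕ) (ε : ℝ), (n : ℝ) ^ (-(1 / C) : ℝ) ≤ ε →
        Nonempty (CliqueSDP n k q r α ε) → (n : ℝ) ^ ((k : ℝ) / C) ≤ 2 ^ q * (r + 1)) ∧
      Nonempty (CliqueSDP n k 0 (n.choose k) α 1) := by
  intro α h0 h1
  obtain ⟨C, hC, h⟩ := clique_lower α h0
  refine ⟨C, hC, fun n k hk hn => ⟨fun q r ε hε hF => h n k q r ε hk hn hε hF, ?_⟩⟩
  exact clique_upper (by omega) h1

end Pool.Agent.Results.MP_678664_lc.SemidefiniteFormulations
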