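import Pool.Agent.TH658.Xg.Clq3
import Pool.Agent.TH658.Xg.Rand

set_option autoImplicit false

/-!
# Symmetric programs of linear algebra need time `n^Ω(k)` to detect a clique with `k` vertices

The symmetric group `Sₙ` acts on the graphs with the vertices `0, ..., n - 1`. A symmetric program
is a sequence of gates. The value of a gate is an arbitrary function of the isomorphism class of a
vector space of dimension `r` (over some field of characteristic not two, which may depend on the
gate) with endomorphisms and sesquilinear forms, on which a subgroup `H` of `Sₙ` acts by a linear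
representation (`ClassGate`, cost `r^2 [Sₙ : H]`), or an arbitrary function of the traces of the
products of `r × r` matrices on which each permutation in `H` acts by some conjugation
(`TraceGate`, cost `r^4 [Sₙ : H]`). The entries of the matrices are linear combinations of
arbitrary functions of induced subgraphs with at most `d` vertices and of arbitrary functions of
the value of an earlier gate at the graph with permuted vertices. A gate thus stands for the
`[Sₙ : H]` gates which one gets from it by permuting the vertices; the cost is the number of the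
entries of their matrices.

For instance, take a circuit with inputs the edges and with gates which compute arbitrary functions
of the number of their true inputs, or of the rank over a field of characteristic not two of a
matrix of inputs, and assume that it is mapped to itself by all permutations of the vertices. It is
a symmetric program; its cost is the number of its gates of the first kind plus the number of the
entries of the matrices of the gates of the second kind.

(1) For `k ≥ 2`, `n ≥ k 16^ℓ`, `d ≤ k / 16` there are two distributions on graphs with `n`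
vertices, one on graphs with a clique of `k` vertices, one on graphs without, such that the
distributions of the value of a symmetric program of cost `S` differ by at most `S / 2^⌊k ℓ / 8⌋`.
(2) So randomized symmetric programs which decide with error `1 / 3` if a graph with `n` vertices
has a clique with `k` vertices have expected cost at least `(n / (16 k))^(k / 32) / 6`.
(3) In particular the cost is not at most `f(k) n^g(k)` for functions `f` and `g` with
`g(k) / k → 0`.
-/

namespace Pool.Agent.Results.MP_678664_lc.SymmetricPrograms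

open Pool.Agent.TH658.Xg

/-- The sum over the gates of the square (for class gates; for trace gates the fourth power) of the
dimension, times the index of the group. -/
noncomputable def cost {n s : ℕ} (H : Fin s → Subgroup (Equiv.Perm (Fin n))) (r p : Fin s → ℕ) :
    ℕ := ∑ j, r j ^ p j * (H j).index

/-- `v` is a symmetric program which reads induced subgraphs with at most `d` vertices. -/
def IsGraphProgram {n s : ℕ} {V : Type} (d : ℕ) (v : Fin s → SimpleGraph (Fin n) → V)
    (H : Fin s → Subgroup (Equiv.Perm (Fin n))) (r p : Fin s → ℕ) : Prop :=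
  IsProgram (Equiv.Perm (Fin n)) (LocalGraph n d) v H r p

/-- The values of the programs have nearly the same distribution on the families `F`, `G`. -/
def Fooled {n : ℕ} (d B : ℕ) {Ω : Type} (F G : Ω → SimpleGraph (Fin n)) : Prop :=
  ∀ (s : ℕ) (V : Type) (v : Fin s → SimpleGraph (Fin n) → V)
    (H : Fin s → Subgroup (Equiv.Perm (Fin n))) (r p : Fin s → ℕ), IsGraphProgram d v H r p →
    ∀ (j₀ : Fin s) (T : Set V),
    |(Nat.card {ω // v j₀ (F ω) ∈ T} : ℝ) - Nat.card {ω // v j₀ (G ω) ∈ T}| * B ≤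
      cost H r p * Nat.card Ω

/-- (1) Average case. -/
def AverageCase : Prop :=
  ∀ k ℓ n d : ℕ, 2 ≤ k → 0 < ℓ → k * 16 ^ ℓ ≤ n → 16 * d ≤ k →
    ∃ (Ω : Type) (_ : Fintype Ω) (_ : Nonempty Ω) (F G : Ω → SimpleGraph (Fin n)),
      (∀ ω, HasClique k (F ω) ∧ ¬ HasClique k (G ω)) ∧ Fooled d (2 ^ (k * ℓ / 8)) F G

/-- The randomized program `v` (`R` is the set of the outcomes of the coin tosses) decides with
error `1 / 3` if a graph has a clique with `k` vertices: it accepts if the value of the gate `j₀`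
is in `T`. -/
def Decides {n : ℕ} {R : Type} [Fintype R] {V : Type} {s : R → ℕ} (k : ℕ)
    (v : (ρ : R) → Fin (s ρ) → SimpleGraph (Fin n) → V) (j₀ : (ρ : R) → Fin (s ρ))
    (T : Set V) : Prop :=
  ∀ G : SimpleGraph (Fin n),
    (HasClique k G → 2 / 3 * (Nat.card R : ℝ) ≤ Nat.card {ρ // v ρ (j₀ ρ) G ∈ T}) ∧
    (¬ HasClique k G → (Nat.card {ρ // v ρ (j₀ ρ) G ∈ T} : ℝ) ≤ 1 / 3 * Nat.card R)

/-- The expected cost of the randomized symmetric programs for cliques with `k` vertices in graphs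
with `n` vertices is at least `B`. -/
def CostAtLeast (k n d : ℕ) (B : ℝ) : Prop :=
  ∀ (R : Type) [Fintype R] (V : Type) (s : R → ℕ)
    (v : (ρ : R) → Fin (s ρ) → SimpleGraph (Fin n) → V)
    (H : (ρ : R) → Fin (s ρ) → Subgroup (Equiv.Perm (Fin n))) (r p : (ρ : R) → Fin (s ρ) → ℕ)
    (j₀ : (ρ : R) → Fin (s ρ)) (T : Set V),
    (∀ ρ, IsGraphProgram d (v ρ) (H ρ) (r ρ) (p ρ)) → Decides k v j₀ T →
    B * Nat.card R ≤ ∑ ρ, (cost (H ρ) (r ρ) (p ρ) : ℝ)

/-- (2) Randomized programs. -/
def Randomized : Prop :=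
  ∀ k n d : ℕ, 2 ≤ k → 16 * d ≤ k →
    CostAtLeast k n d (((n : ℝ) / (16 * k)) ^ ((k : ℝ) / 32) / 6)

/-- (3) The cost is not `f(k) n^o(k)`. -/
def NotFixedParameter : Prop :=
  ∀ f g : ℕ → ℝ, Filter.Tendsto (fun k => g k / k) Filter.atTop (nhds 0) →
    ∀ k₁ : ℕ, ∃ k, k₁ ≤ k ∧ ∃ n₁ : ℕ, ∀ n, n₁ ≤ n → ∀ d, 16 * d ≤ k →
      CostAtLeast k n d (f k * (n : ℝ) ^ g k)

theorem average : AverageCase := by
  intro k ℓ n d hk hℓ hn hd
  obtain ⟨Ω, i1, i2, F, G, h1, h2⟩ := clique_average hk hℓ hn hd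
  refine ⟨Ω, i1, i2, F, G, h1, ?_⟩
  intro s V v H r p hp j₀ T
  have h3 := h2 s V v H r p hp j₀ T
  push_cast
  exact_mod_cast h3

theorem cost_pos {n s d : ℕ} {V : Type} (v : Fin s → SimpleGraph (Fin n) → V)
    (H : Fin s → Subgroup (Equiv.Perm (Fin n))) (r p : Fin s → ℕ)
    (hp : IsGraphProgram d v H r p) (j₀ : Fin s) : 1 ≤ cost H r p := by
  have h1 : 1 ≤ r j₀ ^ p j₀ * (H j₀).index :=
    Nat.mul_pos (Nat.pow_pos (hp j₀).1) (Nat.pos_of_ne_zero Subgroup.index_ne_zero_of_finite)
  exact h1.trans (Finset.single_le_sum (f := fun j => r j ^ p j * (H j).index)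
    (fun _ _ => Nat.zero_le _) (Finset.mem_univ j₀))

theorem randomized : Randomized := by
  intro k n d hk hd R _ V s v H r p j₀ T hp hdec
  have hkR : (0 : ℝ) < k := by exact_mod_cast (by omega : 0 < k)
  have hn0 : (0 : ℝ) ≤ (n : ℝ) / (16 * k) := by positivity
  have hk32 : (0 : ℝ) ≤ (k : ℝ) / 32 := by positivity
  have hR0 : (0 : ℝ) ≤ Nat.card R := Nat.cast_nonneg _
  by_cases hn : n < 16 * k
  · -- the trivial case
    have h1 : ((n : ℝ) / (16 * k)) ^ ((k : ℝ) / 32) ≤ 1 := by
      refine Real.rpow_le_one hn0 ?_ hk32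
      rw [div_le_one (by positivity)]
      exact_mod_cast hn.le
    have h2 : (Nat.card R : ℝ) ≤ ∑ ρ, (cost (H ρ) (r ρ) (p ρ) : ℝ) := by
      rw [Nat.card_eq_fintype_card, ← Finset.card_univ, Finset.card_eq_sum_ones]
      push_cast
      refine Finset.sum_le_sum fun ρ _ => ?_
      exact_mod_cast cost_pos (v ρ) (H ρ) (r ρ) (p ρ) (hp ρ) (j₀ ρ)
    refine le_trans ?_ h2
    have h3 : ((n : ℝ) / (16 * k)) ^ ((k : ℝ) / 32) / 6 ≤ 1 := by linarith
    calc _ ≤ 1 * (Nat.card R : ℝ) := mul_le_mul_of_nonneg_right h3 hR0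
      _ = _ := one_mul _
  · rw [not_lt] at hn
    -- the largest possible `ℓ`
    have hex : ∃ ℓ, n < k * 16 ^ (ℓ + 1) := by
      refine ⟨n, ?_⟩
      have h1 : n < 16 ^ (n + 1) := lt_trans (Nat.lt_pow_self (by norm_num))
        (Nat.pow_lt_pow_right (by norm_num) (Nat.lt_succ_self n))
      calc n < 16 ^ (n + 1) := h1
        _ ≤ k * 16 ^ (n + 1) := Nat.le_mul_of_pos_left _ (by omega)
    classical
    set ℓ := Nat.find hex with hℓ
    have hℓ1 : n < k * 16 ^ (ℓ + 1) := Nat.find_spec hex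
    have hℓ0 : 0 < ℓ := by
      rcases Nat.eq_zero_or_pos ℓ with h | h
      · exfalso
        rw [h, zero_add, pow_one] at hℓ1
        omega
      · exact h
    have hℓ2 : k * 16 ^ ℓ ≤ n := by
      have h1 := Nat.find_min hex (m := ℓ - 1) (by omega)
      rw [not_lt, Nat.sub_add_cancel hℓ0] at h1
      exact h1
    obtain ⟨Ω, i1, i2, F, G, h1, h2⟩ := average k ℓ n d hk hℓ0 hℓ2 hd
    have h3 := randomized_core F G (fun ρ x => v ρ (j₀ ρ) x ∈ T)
      (fun ρ => (cost (H ρ) (r ρ) (p ρ) : ℝ)) ((2 ^ (k * ℓ / 8) : ℕ) : ℝ) (Nat.cast_nonneg _)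
      (fun ρ => h2 (s ρ) V (v ρ) (H ρ) (r ρ) (p ρ) (hp ρ) (j₀ ρ) T)
      (fun ω => (hdec (F ω)).1 (h1 ω).1) (fun ω => (hdec (G ω)).2 (h1 ω).2)
    refine le_trans ?_ h3
    refine mul_le_mul_of_nonneg_right ?_ hR0
    have h4 : (n : ℝ) / (16 * k) ≤ 16 ^ ℓ := by
      rw [div_le_iff₀ (by positivity)]
      have h5 : (n : ℝ) ≤ k * 16 ^ (ℓ + 1) := by exact_mod_cast hℓ1.le
      calc (n : ℝ) ≤ k * 16 ^ (ℓ + 1) := h5
        _ = 16 ^ ℓ * (16 * k) := by ring
    have h5 : ((n : ℝ) / (16 * k)) ^ ((k : ℝ) / 32) ≤ 2 * 2 ^ (k * ℓ / 8) := by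
      refine (Real.rpow_le_rpow hn0 h4 hk32).trans ?_
      have h6 : ((16 : ℝ) ^ ℓ) ^ ((k : ℝ) / 32) = (2 : ℝ) ^ ((k * ℓ : ℝ) / 8) := by
        have h7 : (16 : ℝ) = (2 : ℝ) ^ (4 : ℝ) := by norm_num
        rw [← Real.rpow_natCast, ← Real.rpow_mul (by norm_num), h7,
          ← Real.rpow_mul (by norm_num)]
        congr 1
        ring
      rw [h6]
      have h7 : ((k * ℓ : ℝ) / 8) ≤ 1 + ((k * ℓ / 8 : ℕ) : ℝ) := by
        have h8 : k * ℓ ≤ 8 * (k * ℓ / 8) + 8 := by omega
        have h9 : ((k * ℓ : ℕ) : ℝ) ≤ 8 * ((k * ℓ / 8 : ℕ) : ℝ) + 8 := by exact_mod_cast h8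
        push_cast at h9
        linarith
      refine (Real.rpow_le_rpow_of_exponent_le (by norm_num) h7).trans (le_of_eq ?_)
      rw [Real.rpow_add (by norm_num), Real.rpow_one, Real.rpow_natCast]
    push_cast
    linarith

theorem notFixedParameter : NotFixedParameter := by
  intro f g hg k₁
  -- the choice of `k`
  have h1 : ∀ᶠ k : ℕ in Filter.atTop, g k / k < 1 / 64 :=
    hg.eventually (gt_mem_nhds (by norm_num))
  obtain ⟨k, hk1, hk2, hk3⟩ := (h1.and ((Filter.eventually_ge_atTop k₁).and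
    (Filter.eventually_ge_atTop 2))).exists
  refine ⟨k, hk2, ?_⟩
  have hkR : (0 : ℝ) < k := by exact_mod_cast (by omega : 0 < k)
  have hgk : g k < k / 64 := by
    rw [div_lt_iff₀ hkR] at hk1
    linarith
  -- the choice of `n`
  have h2 : Filter.Tendsto (fun n : ℕ => (n : ℝ) ^ ((k : ℝ) / 64)) Filter.atTop Filter.atTop :=
    (tendsto_rpow_atTop (by positivity)).comp tendsto_natCast_atTop_atTop
  obtain ⟨n₁, hn₁⟩ := Filter.eventually_atTop.mp
    ((h2.eventually_ge_atTop (6 * |f k| * (16 * k) ^ ((k : ℝ) / 32))).and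
      (Filter.eventually_ge_atTop 1))
  refine ⟨n₁, fun n hn d hd => ?_⟩
  obtain ⟨h3, h4⟩ := hn₁ n hn
  have hnR : (1 : ℝ) ≤ n := by exact_mod_cast h4
  have hn0 : (0 : ℝ) < n := by linarith
  have h5 : f k * (n : ℝ) ^ g k ≤ ((n : ℝ) / (16 * k)) ^ ((k : ℝ) / 32) / 6 := by
    have h6 : (n : ℝ) ^ g k ≤ (n : ℝ) ^ ((k : ℝ) / 64) :=
      Real.rpow_le_rpow_of_exponent_le hnR hgk.le
    have h7 : f k * (n : ℝ) ^ g k ≤ |f k| * (n : ℝ) ^ ((k : ℝ) / 64) :=
      mul_le_mul (le_abs_self _) h6 (Real.rpow_nonneg hn0.le _) (abs_nonneg _)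
    refine h7.trans ?_
    rw [Real.div_rpow hn0.le (by positivity), div_div, le_div_iff₀ (by positivity)]
    have h8 : (n : ℝ) ^ ((k : ℝ) / 32) = (n : ℝ) ^ ((k : ℝ) / 64) * (n : ℝ) ^ ((k : ℝ) / 64) := by
      rw [← Real.rpow_add hn0]
      congr 1
      ring
    rw [h8]
    have h9 : (0 : ℝ) ≤ (n : ℝ) ^ ((k : ℝ) / 64) := Real.rpow_nonneg hn0.le _
    calc |f k| * (n : ℝ) ^ ((k : ℝ) / 64) * ((16 * k) ^ ((k : ℝ) / 32) * 6)
        = (6 * |f k| * (16 * k) ^ ((k : ℝ) / 32)) * (n : ℝ) ^ ((k : ℝ) / 64) := by ring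
      _ ≤ (n : ℝ) ^ ((k : ℝ) / 64) * (n : ℝ) ^ ((k : ℝ) / 64) :=
          mul_le_mul_of_nonneg_right h3 h9
  intro R _ V s v H r p j₀ T hp hdec
  refine le_trans ?_ (randomized k n d hk3 hd R V s v H r p j₀ T hp hdec)
  exact mul_le_mul_of_nonneg_right h5 (Nat.cast_nonneg _)

/-- The three lower bounds. -/
theorem result : AverageCase ∧ Randomized ∧ NotFixedParameter :=
  ⟨average, randomized, notFixedParameter⟩

end Pool.Agent.Results.MP_678664_lc.SymmetricPrograms
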